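import Pool.Agent.W711.CR.Stm

/-!
# CR-ORB (MP_434e52_an): the angle between `x(K)` and a cyclic group of order 4
-/

set_option autoImplicit false

namespace Pool.Agent.W540.CR

open Pool.Agent.W711.CR

noncomputable section

/-! ### Decomposition of a unitary representation of a finite abelian group -/

section Decomp

set_option linter.unusedSectionVars false

variable {B : Type} [AddCommGroup B] [Fintype B]
  {H : Type} [NormedAddCommGroup H] [InnerProductSpace ℂ H] [CompleteSpace H]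

theorem unitary_inner (u : H →L[ℂ] H) (hu : u ∈ unitary (H →L[ℂ] H)) (v w : H) :
    inner ℂ (u v) (u w) = (inner ℂ v w : ℂ) := by
  have h1 : star u * u = 1 := (Unitary.mem_iff.mp hu).1
  have h2 : (star u) (u w) = w := by
    have := congrArg (fun f : H →L[ℂ] H => f w) h1
    simpa using this
  rw [← ContinuousLinearMap.adjoint_inner_right, ← ContinuousLinearMap.star_eq_adjoint, h2]

theorem unitary_norm (u : H →L[ℂ] H) (hu : u ∈ unitary (H →L[ℂ] H)) (v : H) :
    ‖u v‖ = ‖v‖ := by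
  have h := unitary_inner u hu v v
  have h1 : ‖u v‖ ^ 2 = ‖v‖ ^ 2 := by
    have e1 := inner_self_eq_norm_sq_to_K (𝕜 := ℂ) (u v)
    have e2 := inner_self_eq_norm_sq_to_K (𝕜 := ℂ) v
    rw [e1, e2] at h
    exact_mod_cast h
  exact (sq_eq_sq₀ (norm_nonneg _) (norm_nonneg _)).mp h1

/-- the component of `ζ` on which `σ` acts by `ψ` -/
def comp (σ : B → H →L[ℂ] H) (ζ : H) (ψ : AddChar B ℂ) : H :=
  (Fintype.card B : ℂ)⁻¹ • ∑ c, ψ (-c) • σ c ζ

theorem comp_eig (σ : B → H →L[ℂ] H) (hadd : ∀ c d, σ (c + d) = σ c * σ d) (ζ : H)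
    (ψ : AddChar B ℂ) (d : B) : σ d (comp σ ζ ψ) = ψ d • comp σ ζ ψ := by
  unfold comp
  rw [map_smul, map_sum, smul_comm (ψ d)]
  congr 1
  rw [Finset.smul_sum]
  refine Fintype.sum_equiv (Equiv.addLeft d) _ _ fun c => ?_
  rw [map_smul]
  have h1 : σ d (σ c ζ) = σ (d + c) ζ := by
    rw [hadd]; rfl
  have h2 : ψ d * ψ (-(d + c)) = ψ (-c) := by
    rw [← AddChar.map_add_eq_mul]
    congr 1
    abel
  rw [h1, smul_smul]
  simp only [Equiv.coe_addLeft]
  rw [h2]

theorem comp_sum (σ : B → H →L[ℂ] H) (h0 : σ 0 = 1) (ζ : H) :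
    ∑ ψ, comp σ ζ ψ = ζ := by
  classical
  unfold comp
  rw [← Finset.smul_sum, Finset.sum_comm]
  have h : ∀ c : B, ∑ ψ : AddChar B ℂ, ψ (-c) • σ c ζ
      = if c = 0 then (Fintype.card B : ℂ) • ζ else 0 := by
    intro c
    rw [← Finset.sum_smul, AddChar.sum_apply_eq_ite]
    by_cases hc : c = 0
    · subst hc
      simp [h0]
    · simp [hc]
  simp only [h]
  rw [Finset.sum_ite_eq' Finset.univ (0 : B) (fun _ => (Fintype.card B : ℂ) • ζ)]
  simp only [Finset.mem_univ, if_true]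
  rw [smul_smul, inv_mul_cancel₀ (by exact_mod_cast Fintype.card_ne_zero), one_smul]

theorem comp_orth (σ : B → H →L[ℂ] H) (hadd : ∀ c d, σ (c + d) = σ c * σ d)
    (hu : ∀ c, σ c ∈ unitary (H →L[ℂ] H)) (ζ : H)
    (ψ ψ' : AddChar B ℂ) (hne : ψ ≠ ψ') : inner ℂ (comp σ ζ ψ) (comp σ ζ ψ') = (0 : ℂ) := by
  obtain ⟨d, hd⟩ : ∃ d, ψ d ≠ ψ' d := by
    by_contra hcon
    push Not at hcon
    exact hne (DFunLike.ext _ _ hcon)
  have h1 := unitary_inner (σ d) (hu d) (comp σ ζ ψ) (comp σ ζ ψ')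
  rw [comp_eig σ hadd, comp_eig σ hadd, inner_smul_left, inner_smul_right] at h1
  by_contra h0
  have h2 : (starRingEnd ℂ) (ψ d) * ψ' d = 1 := by
    have h3 : ((starRingEnd ℂ) (ψ d) * ψ' d - 1) * inner ℂ (comp σ ζ ψ) (comp σ ζ ψ') = 0 := by
      linear_combination h1
    rcases mul_eq_zero.mp h3 with h4 | h4
    · linear_combination h4
    · exact absurd h4 h0
  apply hd
  have h5 : ψ d * (starRingEnd ℂ) (ψ d) = 1 := by
    rw [Complex.mul_conj, Complex.normSq_eq_norm_sq, ψ.norm_apply]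
    simp
  calc ψ d = ψ d * ((starRingEnd ℂ) (ψ d) * ψ' d) := by rw [h2, mul_one]
    _ = (ψ d * (starRingEnd ℂ) (ψ d)) * ψ' d := by ring
    _ = ψ' d := by rw [h5, one_mul]

/-- Pythagoras -/
theorem norm_sum_sq {ι : Type*} [Fintype ι] (v : ι → H)
    (h : ∀ i j, i ≠ j → inner ℂ (v i) (v j) = (0 : ℂ)) (c : ι → ℂ) :
    ‖∑ i, c i • v i‖ ^ 2 = ∑ i, ‖c i‖ ^ 2 * ‖v i‖ ^ 2 := by
  classical
  have h1 : (inner ℂ (∑ i, c i • v i) (∑ i, c i • v i) : ℂ)
      = ∑ i, ((‖c i‖ ^ 2 * ‖v i‖ ^ 2 : ℝ) : ℂ) := by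
    rw [sum_inner]
    refine Finset.sum_congr rfl fun i _ => ?_
    rw [inner_sum, Finset.sum_eq_single i]
    · rw [inner_smul_left, inner_smul_right, inner_self_eq_norm_sq_to_K]
      push_cast
      rw [← mul_assoc, mul_comm ((starRingEnd ℂ) (c i)), Complex.mul_conj,
        Complex.normSq_eq_norm_sq]
      push_cast
      rfl
    · intro j _ hj
      rw [inner_smul_left, inner_smul_right, h i j (Ne.symm hj)]
      simp
    · simp
  rw [inner_self_eq_norm_sq_to_K] at h1
  apply Complex.ofReal_injective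
  push_cast at h1 ⊢
  exact h1

end Decomp

/-! ### The group -/

section Grp

set_option linter.unusedSectionVars false

variable {K : Type} [AddCommGroup K] [Fintype K] {N : Type} [CommGroup N]

/-- the homomorphism `c ↦ u^c` -/
def lft (u : N) (hu : u ^ 4 = 1) : ZMod 4 →+ Additive N :=
  ZMod.lift 4 ⟨zmultiplesHom (Additive N) (Additive.ofMul u), by
    have h4 : (4 : ℤ) • Additive.ofMul u = 0 := by
      have := congrArg Additive.ofMul hu
      rw [ofMul_pow, ofMul_one] at this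
      exact_mod_cast this
    simpa using h4⟩

theorem lft_one (u : N) (hu : u ^ 4 = 1) : lft u hu 1 = Additive.ofMul u := by
  unfold lft
  have h := ZMod.lift_coe 4 (⟨zmultiplesHom (Additive N) (Additive.ofMul u), by
    have h4 : (4 : ℤ) • Additive.ofMul u = 0 := by
      have := congrArg Additive.ofMul hu
      rw [ofMul_pow, ofMul_one] at this
      exact_mod_cast this
    simpa using h4⟩ : {f : ℤ →+ Additive N // f (4 : ℕ) = 0}) 1
  simpa using h

/-- `c ↦ ∏ a, (n a)^(c a)` -/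
def phi (n : K → N) (hn : ∀ a, n a ^ 4 = 1) : (K → ZMod 4) →+ Additive N :=
  ∑ a, (lft (n a) (hn a)).comp (Pi.evalAddMonoidHom (fun _ => ZMod 4) a)

theorem phi_single (n : K → N) (hn : ∀ a, n a ^ 4 = 1) [DecidableEq K] (a : K) :
    phi n hn (Pi.single a 1) = Additive.ofMul (n a) := by
  unfold phi
  rw [AddMonoidHom.finsetSum_apply, Finset.sum_eq_single a]
  · simpa using lft_one (n a) (hn a)
  · intro b _ hb
    simp [hb]
  · simp

theorem ind [DecidableEq K] (P : (K → ZMod 4) → Prop) (h0 : P 0)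
    (hadd : ∀ c d, P c → P d → P (c + d)) (hs : ∀ a, P (Pi.single a 1)) (c : K → ZMod 4) :
    P c := by
  let S : AddSubmonoid (K → ZMod 4) :=
    { carrier := {c | P c}
      zero_mem' := h0
      add_mem' := fun {c d} hc hd => hadd c d hc hd }
  have h1 : ∀ a (t : ZMod 4), (Pi.single a t : K → ZMod 4) ∈ S := by
    intro a t
    have h2 : (Pi.single a t : K → ZMod 4) = t.val • Pi.single a 1 := by
      rw [← Pi.single_smul]
      congr 1
      rw [nsmul_eq_mul, mul_one, ZMod.natCast_val, ZMod.cast_id', id]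
    rw [h2]
    exact S.nsmul_mem (hs a) _
  have h3 : c = ∑ a, Pi.single a (c a) := (Finset.univ_sum_single c).symm
  have h4 : c ∈ S := by
    rw [h3]
    exact S.sum_mem fun a _ => h1 a _
  exact h4

theorem geom4 (z : ℂ) (hz : z ^ 4 = 1) :
    (4 : ℂ)⁻¹ * ∑ j ∈ Finset.range 4, z ^ j = if z = 1 then 1 else 0 := by
  by_cases h : z = 1
  · subst h; simp
  · rw [if_neg h]
    have h1 : (z - 1) * ∑ j ∈ Finset.range 4, z ^ j = 0 := by
      simp only [Finset.sum_range_succ, Finset.sum_range_zero]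
      linear_combination hz
    rcases mul_eq_zero.mp h1 with h2 | h2
    · exact absurd (by linear_combination h2) h
    · rw [h2, mul_zero]

end Grp

theorem orb (hP : P_poly) : P_orb := by
  intro K _ _ G N _ _ x y ι n hK hx hn h4 h3 H _ _ _ π hπ ξ hξ horth
  classical
  set φ := phi n h4 with hφ
  set σ : (K → ZMod 4) → H →L[ℂ] H := fun c => π (ι (Additive.toMul (φ c))) with hσ
  have hσ0 : σ 0 = 1 := by simp [hσ]
  have hσadd : ∀ c d, σ (c + d) = σ c * σ d := by
    intro c d; simp [hσ, map_add, toMul_add, map_mul]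
  have hσu : ∀ c, σ c ∈ unitary (H →L[ℂ] H) := fun c => hπ _
  have hx0 : x 0 = 1 := by
    have := hx 0 0
    rw [add_zero] at this
    exact (mul_eq_left.mp this.symm)
  have hn0 : ι (n 0) = y := by rw [hn 0, hx0]; simp
  have hσs : ∀ a, σ (Pi.single a 1) = π (ι (n a)) := by
    intro a; simp only [hσ, hφ, phi_single]; rfl
  -- shift
  have hshift : ∀ b c, x b * ι (Additive.toMul (φ c))
      = ι (Additive.toMul (φ (fun a => c (a - b)))) * x b := by
    intro b
    refine ind _ ?_ ?_ ?_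
    · have : (fun a : K => (0 : K → ZMod 4) (a - b)) = 0 := rfl
      rw [this]; simp
    · intro c d hc hd
      have : (fun a : K => (c + d) (a - b)) = (fun a : K => c (a - b)) + fun a : K => d (a - b) :=
        rfl
      rw [this, φ.map_add, φ.map_add, toMul_add, toMul_add, ι.map_mul, ι.map_mul, ← mul_assoc, hc,
        mul_assoc, hd, mul_assoc]
    · intro a
      have h5 : (fun a' : K => (Pi.single a 1 : K → ZMod 4) (a' - b)) = Pi.single (b + a) 1 := by
        funext a'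
        by_cases h : a' = b + a
        · subst h; simp
        · have h' : a' - b ≠ a := by
            intro h''; apply h; rw [← h'']; abel
          simp [h, h']
      rw [h5, hφ, phi_single, phi_single, toMul_ofMul, toMul_ofMul, hn, hn, hx]
      group
  have hcomp_eig := comp_eig σ hσadd ξ
  have hcs := comp_sum σ hσ0 ξ
  have hco := comp_orth σ hσadd hσu ξ
  have h1fix : ∀ b, π (x b) (comp σ ξ 0) = comp σ ξ 0 := by
    intro b
    unfold comp
    rw [map_smul, map_sum]
    congr 1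
    refine Fintype.sum_equiv (Equiv.arrowCongr (Equiv.addRight b) (Equiv.refl _)) _ _ fun c => ?_
    rw [map_smul]
    simp only [AddChar.zero_apply, one_smul]
    have h5 : π (x b) (σ c ξ) = (π (x b * ι (Additive.toMul (φ c)))) ξ := by
      rw [map_mul]; rfl
    rw [h5, hshift b c, map_mul]
    have h6 : (π (ι (Additive.toMul (φ fun a => c (a - b)))) * π (x b)) ξ
        = σ (fun a => c (a - b)) (π (x b) ξ) := rfl
    rw [h6, hξ b]
    congr 2
    funext a
    simp [Equiv.arrowCongr, sub_eq_add_neg]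
  have h1y : π y (comp σ ξ 0) = comp σ ξ 0 := by
    have := hcomp_eig 0 (Pi.single 0 1)
    rw [hσs, hn0] at this
    simpa using this
  have h10 : comp σ ξ 0 = 0 := by
    have h5 := horth _ h1fix h1y
    have h6 : (inner ℂ (comp σ ξ 0) ξ : ℂ) = inner ℂ (comp σ ξ 0) (comp σ ξ 0) := by
      conv_lhs => rw [← hcs]
      rw [inner_sum, Finset.sum_eq_single (0 : AddChar (K → ZMod 4) ℂ)]
      · rw [hcs]
      · intro ψ _ hψ
        rw [hcs]
        exact hco _ _ (Ne.symm hψ)
      · simp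
    rw [h6] at h5
    exact inner_self_eq_zero.mp h5
  -- the weights
  set w : K → AddChar (K → ZMod 4) ℂ → ℂ := fun a ψ => if ψ (Pi.single a 1) = 1 then 1 else 0
    with hw
  have hψ4 : ∀ (ψ : AddChar (K → ZMod 4) ℂ) (a : K), ψ (Pi.single a 1) ^ 4 = 1 := by
    intro ψ a
    rw [← AddChar.map_nsmul_eq_pow]
    have : (4 • Pi.single a 1 : K → ZMod 4) = 0 := by
      rw [← Pi.single_smul]
      have h5 : (4 • (1 : ZMod 4)) = 0 := by decide
      rw [h5, Pi.single_zero]
    rw [this, AddChar.map_zero_eq_one]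
  have hPa : ∀ a, ‖(4 : ℂ)⁻¹ • ∑ j ∈ Finset.range 4, π (y ^ j) ξ‖
      = ‖∑ ψ, w a ψ • comp σ ξ ψ‖ := by
    intro a
    rw [← unitary_norm (π (x a)) (hπ _)]
    congr 1
    rw [map_smul, map_sum]
    have h5 : ∀ j : ℕ, (π (x a)) ((π (y ^ j)) ξ)
        = ∑ ψ : AddChar (K → ZMod 4) ℂ, ψ (Pi.single a 1) ^ j • comp σ ξ ψ := by
      intro j
      have h6 : ξ = π (x a)⁻¹ ξ := by
        conv_rhs => rw [← hξ a]
        have : (π (x a)⁻¹) ((π (x a)) ξ) = (π ((x a)⁻¹ * x a)) ξ := by rw [map_mul]; rfl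
        rw [this]; simp
      have h7 : (π (x a)) ((π (y ^ j)) ξ) = (π (x a * y ^ j * (x a)⁻¹)) ξ := by
        rw [map_mul, map_mul]
        change _ = π (x a) (π (y ^ j) (π (x a)⁻¹ ξ))
        rw [← h6]
      have h8 : x a * y ^ j * (x a)⁻¹ = ι (Additive.toMul (φ (j • Pi.single a 1))) := by
        rw [φ.map_nsmul, hφ, phi_single, toMul_nsmul, toMul_ofMul, map_pow, hn, conj_pow]
      rw [h7, h8]
      have h9 : (π (ι (Additive.toMul (φ (j • Pi.single a 1))))) ξ = σ (j • Pi.single a 1) ξ := rfl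
      rw [h9]
      conv_lhs => rw [← hcs]
      rw [map_sum]
      refine Finset.sum_congr rfl fun ψ _ => ?_
      rw [hcomp_eig, AddChar.map_nsmul_eq_pow]
    simp only [h5]
    rw [Finset.sum_comm, Finset.smul_sum]
    refine Finset.sum_congr rfl fun ψ _ => ?_
    rw [← Finset.sum_smul, smul_smul, geom4 _ (hψ4 ψ a)]
  have hnorm : ∀ a, ‖(4 : ℂ)⁻¹ • ∑ j ∈ Finset.range 4, π (y ^ j) ξ‖ ^ 2
      = ∑ ψ, ‖w a ψ‖ ^ 2 * ‖comp σ ξ ψ‖ ^ 2 := by
    intro a
    rw [hPa a, norm_sum_sq _ hco]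
  have hξn : ‖ξ‖ ^ 2 = ∑ ψ, ‖comp σ ξ ψ‖ ^ 2 := by
    have h5 := norm_sum_sq (comp σ ξ) hco (fun _ => 1)
    simp only [one_smul, hcs, norm_one, one_pow, one_mul] at h5
    exact h5
  have hkey : ∀ ψ, (∑ a, ‖w a ψ‖ ^ 2) * ‖comp σ ξ ψ‖ ^ 2
      ≤ (3 / 4 * (Fintype.card K : ℝ)) * ‖comp σ ξ ψ‖ ^ 2 := by
    intro ψ
    by_cases h0 : comp σ ξ ψ = 0
    · rw [h0]; simp
    refine mul_le_mul_of_nonneg_right ?_ (by positivity)
    have hne : ψ ≠ 0 := by
      rintro rfl; exact h0 h10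
    have hrel : ∀ d, φ d = 0 → ψ d = 1 := by
      intro d hd
      have h5 := hcomp_eig ψ d
      have h6 : σ d = 1 := by simp [hσ, hd]
      rw [h6] at h5
      have h7 : (ψ d - 1) • comp σ ξ ψ = 0 := by
        rw [sub_smul, ← h5, one_smul]; simp
      rcases smul_eq_zero.mp h7 with h8 | h8
      · linear_combination h8
      · exact absurd h8 h0
    have hunit : ∀ a, ψ (Pi.single a 1) ≠ 0 := by
      intro a h5
      have := hψ4 ψ a
      rw [h5] at this
      norm_num at this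
    let f : K → ℂˣ := fun a => Units.mk0 (ψ (Pi.single a 1)) (hunit a)
    have hf3 : ∀ s a b c : K, f (s + a + b + c) * f (s + a) * f (s + b) * f (s + c)
      = f (s + a + b) * f (s + a + c) * f (s + b + c) * f s := by
      intro s a b c
      apply Units.ext
      simp only [f, Units.val_mul, Units.val_mk0]
      set d1 : K → ZMod 4 := Pi.single (s + a + b + c) 1 + Pi.single (s + a) 1
        + Pi.single (s + b) 1 + Pi.single (s + c) 1 with hd1
      set d2 : K → ZMod 4 := Pi.single (s + a + b) 1 + Pi.single (s + a + c) 1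
        + Pi.single (s + b + c) 1 + Pi.single s 1 with hd2
      have h5 : φ (d1 - d2) = 0 := by
        rw [map_sub, sub_eq_zero, hd1, hd2]
        simp only [map_add, hφ, phi_single]
        exact congrArg Additive.ofMul (h3 s a b c)
      have h6 := hrel _ h5
      have h7 : ψ d1 = ψ d2 := by
        have : d1 = (d1 - d2) + d2 := by abel
        rw [this, AddChar.map_add_eq_mul, h6, one_mul]
      rw [hd1, hd2] at h7
      simpa only [AddChar.map_add_eq_mul] using h7
    have hfn : ∃ a, f a ≠ 1 := by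
      by_contra hcon
      push Not at hcon
      apply hne
      refine DFunLike.ext _ _ fun c => ?_
      rw [AddChar.zero_apply]
      refine ind (fun c => ψ c = 1) (AddChar.map_zero_eq_one ψ) ?_ ?_ c
      · intro c d hc hd
        rw [AddChar.map_add_eq_mul, hc, hd, one_mul]
      · intro a
        have := congrArg Units.val (hcon a)
        simpa [f] using this
    have h5 := hP K ℂˣ f hK hf3 hfn
    have h6 : (∑ a, ‖w a ψ‖ ^ 2 : ℝ) = (Fintype.card K : ℝ) - Nat.card {a : K // f a ≠ 1} := by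
      have h7 : ∀ a, ‖w a ψ‖ ^ 2 = 1 - (if f a ≠ 1 then (1 : ℝ) else 0) := by
        intro a
        have h8 : f a = 1 ↔ ψ (Pi.single a 1) = 1 := by
          rw [Units.ext_iff]; rfl
        by_cases h9 : f a = 1
        · simp [hw, h8.mp h9, h9]
        · have h10 := mt h8.mpr h9
          simp [hw, h10, h9]
      rw [Finset.sum_congr rfl fun a _ => h7 a, Finset.sum_sub_distrib, Finset.sum_const,
        Finset.card_univ, nsmul_eq_mul, mul_one, Finset.sum_boole, Nat.card_eq_fintype_card,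
        Fintype.card_subtype]
    rw [h6]
    rw [Nat.card_eq_fintype_card (α := K)] at h5
    have h7 : (Fintype.card K : ℝ) ≤ 4 * (Nat.card {a : K // f a ≠ 1} : ℝ) := by exact_mod_cast h5
    linarith
  have hsum : (Fintype.card K : ℝ) * ‖(4 : ℂ)⁻¹ • ∑ j ∈ Finset.range 4, π (y ^ j) ξ‖ ^ 2
      ≤ (Fintype.card K : ℝ) * (3 / 4 * ‖ξ‖ ^ 2) := by
    calc (Fintype.card K : ℝ) * ‖(4 : ℂ)⁻¹ • ∑ j ∈ Finset.range 4, π (y ^ j) ξ‖ ^ 2
        = ∑ a : K, ∑ ψ, ‖w a ψ‖ ^ 2 * ‖comp σ ξ ψ‖ ^ 2 := by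
          rw [Finset.sum_congr rfl fun a _ => (hnorm a).symm, Finset.sum_const, Finset.card_univ,
            nsmul_eq_mul]
      _ = ∑ ψ, (∑ a, ‖w a ψ‖ ^ 2) * ‖comp σ ξ ψ‖ ^ 2 := by
          rw [Finset.sum_comm]
          refine Finset.sum_congr rfl fun ψ _ => ?_
          rw [Finset.sum_mul]
      _ ≤ ∑ ψ, (3 / 4 * (Fintype.card K : ℝ)) * ‖comp σ ξ ψ‖ ^ 2 :=
          Finset.sum_le_sum fun ψ _ => hkey ψ
      _ = (Fintype.card K : ℝ) * (3 / 4 * ‖ξ‖ ^ 2) := by
          rw [← Finset.mul_sum, ← hξn]; ring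
  have hq : (0 : ℝ) < Fintype.card K := by exact_mod_cast Fintype.card_pos
  have h5 := le_of_mul_le_mul_left hsum hq
  have h6 : (0 : ℝ) ≤ 7 / 8 * ‖ξ‖ := by positivity
  refine le_of_sq_le_sq ?_ h6
  nlinarith [sq_nonneg ‖ξ‖]

end

end Pool.Agent.W540.CR
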